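import Mathlib

set_option autoImplicit false

namespace Pool.Agent.Results.MP_f570d5_co.HubDistance

open Finset

variable {V : Type*}

/-- `G` is t-perfect: the stable set polytope (convex hull of the incidence vectors of the stable sets)
is described by nonnegativity, the edge inequalities and the odd cycle inequalities. -/
def TPerfect [DecidableEq V] (G : SimpleGraph V) : Prop :=
  convexHull ℝ {x : V → ℝ | ∃ s : Set V, G.IsIndepSet s ∧ x = s.indicator (fun _ => (1 : ℝ))} =
    {x : V → ℝ | (∀ v, 0 ≤ x v) ∧ (∀ u v, G.Adj u v → x u + x v ≤ 1) ∧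
      (∀ (u : V) (p : G.Walk u u), p.IsCycle → Odd p.length →
        ∑ v ∈ p.support.toFinset, x v ≤ ((p.length : ℝ) - 1) / 2)}

/-- `T` is connected in `G` (in terms of invariant predicates) -/
def Cn (G : SimpleGraph V) (T : Set V) : Prop :=
  ∀ φ : V → Prop, (∀ u ∈ T, ∀ v ∈ T, G.Adj u v → (φ u ↔ φ v)) → ∀ x ∈ T, ∀ y ∈ T, (φ x ↔ φ y)

lemma cn_of_connected (G : SimpleGraph V) (T : Set V) (h : (G.induce T).Connected) : Cn G T := by
  intro φ hφ x hx y hy
  obtain ⟨w⟩ := h.preconnected ⟨x, hx⟩ ⟨y, hy⟩
  have key : ∀ (a b : T) (w : (G.induce T).Walk a b), (φ a ↔ φ b) := by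
    intro a b w
    induction w with
    | nil => exact Iff.rfl
    | cons hab _ ih => exact (hφ _ (Subtype.coe_prop _) _ (Subtype.coe_prop _) hab).trans ih
  exact key _ _ w

/-- adding vertices which have a neighbour in a connected set -/
lemma cn_add (G : SimpleGraph V) (T P : Set V) (h : Cn G T)
    (hP : ∀ v ∈ P, ∃ u ∈ T, G.Adj u v) : Cn G (T ∪ P) := by
  intro φ hφ
  have h1 := h φ (fun u hu v hv huv => hφ u (Or.inl hu) v (Or.inl hv) huv)
  have h2 : ∀ x ∈ T ∪ P, ∃ u ∈ T, (φ x ↔ φ u) := by
    intro x hx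
    rcases hx with hx | hx
    · exact ⟨x, hx, Iff.rfl⟩
    · obtain ⟨u, hu, hux⟩ := hP x hx
      exact ⟨u, hu, (hφ u (Or.inl hu) x (Or.inr hx) hux).symm⟩
  intro x hx y hy
  obtain ⟨u, hu, hxu⟩ := h2 x hx
  obtain ⟨v, hv, hyv⟩ := h2 y hy
  exact hxu.trans ((h1 u hu v hv).trans hyv.symm)

/-- shift invariance of sums over a period -/
lemma sum_shift (m : ℕ) (F : ℕ → ℕ) (hF : F m = F 0) :
    ∑ i ∈ range m, F (i + 1) = ∑ i ∈ range m, F i := by
  have h1 := sum_range_succ F m
  have h2 := sum_range_succ' F m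
  omega

/-- the counting behind the odd cycle inequality: `b` is a 0-1 sequence of odd period `m` without two
consecutive ones; if its sum is maximal then it alternates except at one place -/
lemma alt (m : ℕ) (b : ℕ → ℕ) (hper : ∀ i, b (i + m) = b i)
    (hb : ∀ i, b i + b (i + 1) ≤ 1) (hm : 2 * ∑ i ∈ range m, b i + 1 = m) :
    ∃ j, b (j + 1) = 0 ∧ b (j + 2) = 0 ∧ (2 ≤ m → b j = 1 ∧ b (j + 3) = 1) := by
  have hsum : ∑ i ∈ range m, (b i + b (i + 1)) + 1 = m := by
    rw [sum_add_distrib, sum_shift m b (by have := hper 0; rwa [zero_add] at this)]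
    omega
  have hex : ∃ i < m, b i + b (i + 1) = 0 := by
    by_contra hcon
    push Not at hcon
    have h1 : ∑ i ∈ range m, 1 ≤ ∑ i ∈ range m, (b i + b (i + 1)) := by
      apply sum_le_sum
      intro i hi
      have := hcon i (mem_range.1 hi)
      omega
    simp at h1
    omega
  obtain ⟨i0, hi0, h0⟩ := hex
  have hone : ∀ i < m, i ≠ i0 → b i + b (i + 1) = 1 := by
    intro i hi hne
    by_contra hcon
    have hz : b i + b (i + 1) = 0 := by have := hb i; omega
    have h1 : ∑ k ∈ range m, (b k + b (k + 1)) ≤ ∑ k ∈ range m, (if k = i ∨ k = i0 then 0 else 1) := by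
      apply sum_le_sum
      intro k hk
      by_cases hk1 : k = i
      · subst hk1; simp [hz]
      · by_cases hk2 : k = i0
        · subst hk2; simp [h0]
        · simp only [hk1, hk2, or_self, if_false]; exact hb k
    have h2 : ∑ k ∈ range m, (if k = i ∨ k = i0 then 0 else 1) + 2 = m := by
      have h3 : ∑ k ∈ range m, ((if k = i ∨ k = i0 then 0 else 1) + ((if k = i then 1 else 0) +
          (if k = i0 then 1 else 0))) = ∑ k ∈ range m, 1 := by
        apply sum_congr rfl
        intro k _
        by_cases hk1 : k = i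
        · subst hk1; simp [hne]
        · by_cases hk2 : k = i0
          · subst hk2; simp [hk1]
          · simp [hk1, hk2]
      rw [sum_add_distrib, sum_add_distrib, sum_ite_eq', sum_ite_eq'] at h3
      simp only [mem_range, hi, hi0, if_true, sum_const, card_range, smul_eq_mul, mul_one] at h3
      omega
    omega
  have hperm : ∀ i q, b (i + m * q) = b i := by
    intro i q
    induction q with
    | zero => simp
    | succ q ih => rw [Nat.mul_succ, ← add_assoc, hper, ih]
  have hall : ∀ i, i % m ≠ i0 → b i + b (i + 1) = 1 := by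
    intro i hi
    have hmpos : 0 < m := by omega
    have h1 := hone (i % m) (Nat.mod_lt _ hmpos) hi
    have h2 : b i = b (i % m) := by
      conv_lhs => rw [← Nat.mod_add_div i m]
      exact hperm _ _
    have h3 : b (i + 1) = b (i % m + 1) := by
      conv_lhs => rw [← Nat.mod_add_div i m]
      rw [show i % m + m * (i / m) + 1 = i % m + 1 + m * (i / m) by ring]
      exact hperm _ _
    rw [h2, h3, h1]
  -- take `j + 1 = i0 + m`
  have hmpos : 0 < m := by omega
  have e0 : b (i0 + m) = 0 := by rw [hper]; omega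
  have e1 : b (i0 + m + 1) = 0 := by
    rw [show i0 + m + 1 = i0 + 1 + m by ring, hper]; omega
  refine ⟨i0 + m - 1, ?_, ?_, ?_⟩
  · rw [show i0 + m - 1 + 1 = i0 + m by omega]; exact e0
  · rw [show i0 + m - 1 + 2 = i0 + m + 1 by omega]; exact e1
  · intro hm2
    constructor
    · have h1 := hall (i0 + m - 1) (by
        intro hcon
        have h2 : (i0 + m - 1) % m = i0 % m := by rw [hcon, Nat.mod_eq_of_lt hi0]
        have h3 : (i0 + m - 1 + 1) % m = (i0 + 1) % m := by rw [Nat.add_mod, h2, ← Nat.add_mod]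
        rw [show i0 + m - 1 + 1 = i0 + m by omega, Nat.add_mod_right, Nat.mod_eq_of_lt hi0] at h3
        by_cases h4 : i0 + 1 < m
        · rw [Nat.mod_eq_of_lt h4] at h3; omega
        · rw [show i0 + 1 = m by omega, Nat.mod_self] at h3; omega)
      rw [show i0 + m - 1 + 1 = i0 + m by omega, e0] at h1
      omega
    · have h1 := hall (i0 + m + 1) (by
        intro hcon
        have h3 : (i0 + m + 1) % m = (i0 + 1) % m := by
          rw [show i0 + m + 1 = i0 + 1 + m by ring, Nat.add_mod_right]
        rw [hcon] at h3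
        by_cases h4 : i0 + 1 < m
        · rw [Nat.mod_eq_of_lt h4] at h3; omega
        · rw [show i0 + 1 = m by omega, Nat.mod_self] at h3; omega)
      rw [e1] at h1
      rw [show i0 + m - 1 + 3 = i0 + m + 1 + 1 by omega]
      omega


/-- the periodic sequence of the vertices of a closed walk -/
def per {G : SimpleGraph V} {u : V} (p : G.Walk u u) (i : ℕ) : V := p.getVert (i % p.length)

lemma per_adj {G : SimpleGraph V} {u : V} (p : G.Walk u u) (hp : 0 < p.length) (i : ℕ) :
    G.Adj (per p i) (per p (i + 1)) := by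
  unfold per
  have h1 := Nat.mod_lt i hp
  by_cases h2 : i % p.length + 1 < p.length
  · rw [Nat.add_mod i 1, Nat.mod_eq_of_lt (a := 1) (by omega), Nat.mod_eq_of_lt h2]
    exact p.adj_getVert_succ h1
  · have h3 : i % p.length + 1 = p.length := by omega
    have h4 : (i + 1) % p.length = 0 := by
      rw [← Nat.mod_add_mod, h3, Nat.mod_self]
    rw [h4, p.getVert_zero]
    have h5 := p.adj_getVert_succ h1
    rwa [h3, p.getVert_length] at h5

lemma per_per {G : SimpleGraph V} {u : V} (p : G.Walk u u) (i : ℕ) :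
    per p (i + p.length) = per p i := by
  unfold per
  rw [Nat.add_mod_right]

/-- a stable set contains at most half of the vertices of a closed walk -/
lemma stable_walk {G : SimpleGraph V} {u : V} (p : G.Walk u u) (hp : 0 < p.length) (S : Set V)
    [DecidablePred (· ∈ S)] (hS : G.IsIndepSet S) :
    2 * ∑ i ∈ range p.length, (if per p i ∈ S then 1 else 0) ≤ p.length := by
  set b : ℕ → ℕ := fun i => if per p i ∈ S then 1 else 0 with hb
  have h1 : ∀ i, b i + b (i + 1) ≤ 1 := by
    intro i
    simp only [hb]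
    by_cases h2 : per p i ∈ S
    · by_cases h3 : per p (i + 1) ∈ S
      · exact absurd (per_adj p hp i) (hS h2 h3 (per_adj p hp i).ne)
      · simp [h2, h3]
    · simp only [h2, if_false]
      split_ifs <;> omega
  have h2 := sum_shift p.length b (by
    have := per_per p 0
    simp only [hb]
    rw [zero_add] at this
    rw [this])
  have h3 : ∑ i ∈ range p.length, (b i + b (i + 1)) ≤ ∑ i ∈ range p.length, 1 :=
    sum_le_sum (fun i _ => h1 i)
  rw [sum_add_distrib, h2] at h3
  simp at h3
  show 2 * ∑ i ∈ range p.length, b i ≤ p.length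
  omega

/-- the point used in the hub lemma satisfies the odd cycle inequalities -/
lemma walk_ineq {G : SimpleGraph V} (A B O : Set V) [DecidablePred (· ∈ A)] [DecidablePred (· ∈ B)]
    [DecidablePred (· ∈ O)] (hA : G.IsIndepSet A) (hB : G.IsIndepSet B)
    (hO : ∀ v ∈ O, ∀ b ∈ B, ¬ G.Adj b v)
    {u : V} (p : G.Walk u u) (hp : Odd p.length) :
    2 * ∑ i ∈ range p.length, ((if per p i ∈ B then 1 else 0) +
      (if per p i ∈ A ∨ per p i ∈ B ∨ per p i ∈ O then 1 else 0)) + 3 ≤ 3 * p.length := by
  obtain ⟨k, hk⟩ := hp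
  have hpos : 0 < p.length := by omega
  have h1 := stable_walk p hpos B hB
  rw [sum_add_distrib]
  set sB := ∑ i ∈ range p.length, (if per p i ∈ B then 1 else 0) with hsB
  set sS := ∑ i ∈ range p.length, (if per p i ∈ A ∨ per p i ∈ B ∨ per p i ∈ O then 1 else 0)
    with hsS
  have h2 : sS ≤ p.length := by
    have : sS ≤ ∑ i ∈ range p.length, 1 := by
      apply sum_le_sum
      intro i _
      split_ifs <;> omega
    simpa using this
  by_contra hcon
  have h3 : sB = k := by omega
  have h4 : sS = p.length := by omega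
  -- all the vertices are in the union
  have h5 : ∀ i < p.length, per p i ∈ A ∨ per p i ∈ B ∨ per p i ∈ O := by
    intro i hi
    by_contra hc
    have h6 : sS + (if i ∈ range p.length then 1 else 0) ≤ ∑ i ∈ range p.length, 1 := by
      rw [hsS, ← sum_ite_eq' (range p.length) i (fun _ => 1), ← sum_add_distrib]
      apply sum_le_sum
      intro j _
      by_cases hj : j = i
      · subst hj; simp [hc]
      · simp only [hj, if_false]
        split_ifs <;> omega
    rw [if_pos (mem_range.2 hi)] at h6
    simp at h6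
    omega
  have h5' : ∀ i, per p i ∈ A ∨ per p i ∈ B ∨ per p i ∈ O := by
    intro i
    have h6 := h5 (i % p.length) (Nat.mod_lt _ hpos)
    have h7 : per p (i % p.length) = per p i := by unfold per; rw [Nat.mod_mod]
    rwa [h7] at h6
  by_cases hm2 : 2 ≤ p.length
  · obtain ⟨j, hj1, hj2, hj3⟩ := alt p.length (fun i => if per p i ∈ B then 1 else 0)
      (fun i => by simp only [per_per]) (by
        intro i
        by_cases h2 : per p i ∈ B
        · by_cases h3 : per p (i + 1) ∈ B
          · exact absurd (per_adj p hpos i) (hB h2 h3 (per_adj p hpos i).ne)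
          · simp [h2, h3]
        · simp only [h2, if_false]
          split_ifs <;> omega) (by
        rw [← hsB, h3]; omega)
    obtain ⟨hj3, hj4⟩ := hj3 hm2
    have hj1' : per p (j + 1) ∉ B := by
      intro h; simp only [h, if_true] at hj1; omega
    have hj2' : per p (j + 2) ∉ B := by
      intro h; simp only [h, if_true] at hj2; omega
    have hj3' : per p j ∈ B := by
      by_contra h; simp only [h, if_false] at hj3; omega
    have hj4' : per p (j + 3) ∈ B := by
      by_contra h; simp only [h, if_false] at hj4; omega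
    have hA1 : per p (j + 1) ∈ A := by
      rcases h5' (j + 1) with h | h | h
      · exact h
      · exact absurd h hj1'
      · exact absurd (per_adj p hpos j) (hO _ h _ hj3')
    have hA2 : per p (j + 2) ∈ A := by
      rcases h5' (j + 2) with h | h | h
      · exact h
      · exact absurd h hj2'
      · exact absurd (per_adj p hpos (j + 2)).symm (hO _ h _ hj4')
    exact absurd (per_adj p hpos (j + 1)) (hA hA1 hA2 (per_adj p hpos (j + 1)).ne)
  · have h6 : p.length = 1 := by omega
    have h7 := per_adj p hpos 0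
    have h8 : per p (0 + 1) = per p 0 := by unfold per; rw [h6]
    rw [h8] at h7
    exact G.irrefl h7

/-- the tight edges of the hub force a stable set to contain one of its two classes -/
lemma tight {G : SimpleGraph V} (A B S : Set V) (hAB : ∀ v ∈ A, v ∉ B) (hT : Cn G (A ∪ B))
    (hA : G.IsIndepSet A) (hB : G.IsIndepSet B)
    (h : ∀ a ∈ A, ∀ b ∈ B, G.Adj a b → (a ∈ S ↔ b ∉ S)) (a0 : V) (ha0 : a0 ∈ A) (h0 : a0 ∈ S) :
    ∀ a ∈ A, a ∈ S := by
  intro a ha
  have h1 := hT (fun v => (v ∈ A ∧ v ∈ S) ∨ (v ∈ B ∧ v ∉ S)) (by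
    intro u hu v hv huv
    rcases hu with hu | hu
    · rcases hv with hv | hv
      · exact absurd huv (hA hu hv huv.ne)
      · have h2 := h u hu v hv huv
        have h3 : u ∉ B := hAB u hu
        have h4 : v ∉ A := fun h => hAB v h hv
        simp only [hu, hv, h3, h4, true_and, false_and, or_false, false_or]
        exact h2
    · rcases hv with hv | hv
      · have h2 := h v hv u hu huv.symm
        have h3 : v ∉ B := hAB v hv
        have h4 : u ∉ A := fun h => hAB u h hu
        simp only [hu, hv, h3, h4, true_and, false_and, or_false, false_or]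
        exact h2.symm
      · exact absurd huv (hB hu hv huv.ne)) a0 (Or.inl ha0) a (Or.inl ha)
  rcases h1.1 (Or.inl ⟨ha0, h0⟩) with h2 | h2
  · exact h2.2
  · exact absurd h2.1 (hAB a ha)

/-- no closed walk of odd length consists of vertices which have a neighbour in one class of a hub and
none in the other -/
lemma hub_walk [Fintype V] [DecidableEq V] (G : SimpleGraph V) (hG : TPerfect G) (A B : Set V)
    (hA : G.IsIndepSet A) (hB : G.IsIndepSet B) (hAB : ∀ v ∈ A, v ∉ B) (hT : Cn G (A ∪ B))
    {u : V} (p : G.Walk u u) (hp : Odd p.length)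
    (hO : ∀ i, per p i ∉ A ∧ per p i ∉ B ∧ (∃ a ∈ A, G.Adj a (per p i)) ∧
      ∀ b ∈ B, ¬ G.Adj b (per p i)) : False := by
  classical
  have hpos : 0 < p.length := hp.pos
  set O : Set V := Set.range (per p) with hOdef
  set x : V → ℝ := fun v => if v ∈ B then 2 / 3 else if v ∈ A ∨ v ∈ O then 1 / 3 else 0 with hx
  have hx3 : ∀ v, x v = (((if v ∈ B then 1 else 0) + (if v ∈ A ∨ v ∈ B ∨ v ∈ O then 1 else 0) : ℕ) : ℝ)
      / 3 := by
    intro v
    simp only [hx]
    by_cases h1 : v ∈ B
    · simp only [h1, if_true, true_or, or_true]; norm_num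
    · by_cases h2 : v ∈ A ∨ v ∈ O
      · simp only [h1, if_false, h2, if_true, false_or]; norm_num
      · simp only [h1, if_false, h2, false_or]; norm_num
  have hmem : x ∈ {x : V → ℝ | (∀ v, 0 ≤ x v) ∧ (∀ u v, G.Adj u v → x u + x v ≤ 1) ∧
      (∀ (u : V) (p : G.Walk u u), p.IsCycle → Odd p.length →
        ∑ v ∈ p.support.toFinset, x v ≤ ((p.length : ℝ) - 1) / 2)} := by
    refine ⟨?_, ?_, ?_⟩
    · intro v
      rw [hx3]
      positivity
    · intro v w hvw
      have h1 : ∀ v, x v ≤ 2 / 3 := by
        intro v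
        simp only [hx]
        split_ifs <;> norm_num
      have h2 : ∀ v, v ∉ B → x v ≤ 1 / 3 := by
        intro v hv
        simp only [hx, hv, if_false]
        split_ifs <;> norm_num
      by_cases hv : v ∈ B
      · have hw : w ∉ B := fun hw => hB hv hw hvw.ne hvw
        have := h1 v
        have := h2 w hw
        linarith
      · have := h1 w
        have := h2 v hv
        linarith
    · intro w q _ hq
      have hqpos : 0 < q.length := hq.pos
      have h1 : ∑ v ∈ q.support.toFinset, x v ≤ ∑ i ∈ range q.length, x (per q i) := by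
        have hsub : q.support.toFinset ⊆ (range q.length).image (per q) := by
          intro v hv
          rw [List.mem_toFinset, SimpleGraph.Walk.mem_support_iff_exists_getVert] at hv
          obtain ⟨i, hi, hi2⟩ := hv
          rw [mem_image]
          by_cases h : i < q.length
          · exact ⟨i, mem_range.2 h, by unfold per; rw [Nat.mod_eq_of_lt h]; exact hi⟩
          · refine ⟨0, mem_range.2 hqpos, ?_⟩
            have h2 : i = q.length := by omega
            unfold per
            rw [Nat.zero_mod, q.getVert_zero, ← hi, h2, q.getVert_length]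
        calc ∑ v ∈ q.support.toFinset, x v ≤ ∑ v ∈ (range q.length).image (per q), x v := by
              apply sum_le_sum_of_subset_of_nonneg hsub
              intro v _ _
              rw [hx3]; positivity
          _ ≤ ∑ i ∈ range q.length, x (per q i) := by
              apply sum_image_le_of_nonneg
              intro v _
              rw [hx3]; positivity
      have h2 := walk_ineq (G := G) A B O hA hB (by
        rintro v ⟨i, rfl⟩
        exact (hO i).2.2.2) q hq
      have h3 : ∑ i ∈ range q.length, x (per q i) =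
          ((∑ i ∈ range q.length, ((if per q i ∈ B then 1 else 0) +
            (if per q i ∈ A ∨ per q i ∈ B ∨ per q i ∈ O then 1 else 0)) : ℕ) : ℝ) / 3 := by
        push_cast
        rw [sum_div]
        apply sum_congr rfl
        intro i _
        rw [hx3]
        push_cast
        rfl
      have h4 : (2 : ℝ) * ((∑ i ∈ range q.length, ((if per q i ∈ B then 1 else 0) +
            (if per q i ∈ A ∨ per q i ∈ B ∨ per q i ∈ O then 1 else 0)) : ℕ) : ℝ) + 3 ≤
            3 * q.length := by exact_mod_cast h2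
      rw [h3] at h1
      linarith
  rw [← hG] at hmem
  obtain ⟨ι, _, w, z, hw0, hw1, hz, hxz⟩ := mem_convexHull_iff_exists_fintype.1 hmem
  choose S hS hzS using hz
  have hval : ∀ v, x v = ∑ i, w i * (if v ∈ S i then 1 else 0) := by
    intro v
    rw [← hxz, Finset.sum_apply]
    apply sum_congr rfl
    intro i _
    rw [Pi.smul_apply, hzS i, smul_eq_mul, Set.indicator_apply]
  have hxA : ∀ a ∈ A, x a = 1 / 3 := by
    intro a ha
    simp only [hx, hAB a ha, if_false, ha, true_or, if_true]
  have hxB : ∀ b ∈ B, x b = 2 / 3 := by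
    intro b hb
    simp only [hx, hb, if_true]
  have hxO : ∀ i, x (per p i) = 1 / 3 := by
    intro i
    have h1 : per p i ∈ O := ⟨i, rfl⟩
    simp only [hx, (hO i).2.1, if_false, h1, or_true, if_true]
  have htight : ∀ i, w i ≠ 0 → ∀ a ∈ A, ∀ b ∈ B, G.Adj a b → (a ∈ S i ↔ b ∉ S i) := by
    intro i hi a ha b hb hab
    have h1 : ∑ i, w i * (1 - (if a ∈ S i then 1 else 0) - (if b ∈ S i then 1 else 0)) = 0 := by
      have h2 : ∀ i, w i * (1 - (if a ∈ S i then 1 else 0) - (if b ∈ S i then 1 else 0)) =
          w i - w i * (if a ∈ S i then 1 else 0) - w i * (if b ∈ S i then (1 : ℝ) else 0) := by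
        intro i; ring
      simp_rw [h2]
      rw [sum_sub_distrib, sum_sub_distrib, hw1, ← hval, ← hval, hxA a ha, hxB b hb]
      norm_num
    have hnn : ∀ i ∈ univ, 0 ≤ w i * (1 - (if a ∈ S i then 1 else 0) -
        (if b ∈ S i then (1 : ℝ) else 0)) := by
      intro i _
      apply mul_nonneg (hw0 i)
      by_cases h3 : a ∈ S i
      · have h4 : b ∉ S i := fun h4 => hS i h3 h4 hab.ne hab
        simp [h3, h4]
      · by_cases h4 : b ∈ S i <;> simp [h3, h4]
    have h2 := (sum_eq_zero_iff_of_nonneg hnn).1 h1 i (mem_univ i)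
    rcases mul_eq_zero.1 h2 with h3 | h3
    · exact absurd h3 hi
    · by_cases h4 : a ∈ S i
      · have h5 : b ∉ S i := fun h5 => hS i h4 h5 hab.ne hab
        simp [h4, h5]
      · by_cases h5 : b ∈ S i
        · simp [h4, h5]
        · simp [h4, h5] at h3
  obtain ⟨k, hk⟩ := hp
  obtain ⟨a0, ha0, _⟩ := (hO 0).2.2.1
  have hbound : ∀ i, w i * ((∑ j ∈ range p.length, (if per p j ∈ S i then 1 else 0) : ℕ) : ℝ) ≤
      w i * ((k : ℝ) * (1 - (if a0 ∈ S i then 1 else 0))) := by
    intro i
    by_cases hi : w i = 0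
    · rw [hi, zero_mul, zero_mul]
    · apply mul_le_mul_of_nonneg_left _ (hw0 i)
      by_cases h1 : a0 ∈ S i
      · have h2 := tight A B (S i) hAB hT hA hB (htight i hi) a0 ha0 h1
        have h3 : ∀ j, per p j ∉ S i := by
          intro j hj
          obtain ⟨a, ha, haj⟩ := (hO j).2.2.1
          exact hS i (h2 a ha) hj haj.ne haj
        simp [h3, h1]
      · have h2 := stable_walk p hpos (S i) (hS i)
        have h3 : ∑ j ∈ range p.length, (if per p j ∈ S i then 1 else 0) ≤ k := by omega
        simp only [h1, if_false, sub_zero, mul_one]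
        exact_mod_cast h3
  have hfin := sum_le_sum (fun i (_ : i ∈ univ) => hbound i)
  have hL : ∑ i, w i * ((∑ j ∈ range p.length, (if per p j ∈ S i then 1 else 0) : ℕ) : ℝ) =
      (p.length : ℝ) / 3 := by
    have h1 : ∀ i, w i * ((∑ j ∈ range p.length, (if per p j ∈ S i then 1 else 0) : ℕ) : ℝ) =
        ∑ j ∈ range p.length, w i * (if per p j ∈ S i then 1 else 0) := by
      intro i
      push_cast
      rw [mul_sum]
    simp_rw [h1]
    rw [sum_comm]
    simp_rw [← hval, hxO]
    rw [sum_const, card_range, nsmul_eq_mul]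
    ring
  have hR : ∑ i, w i * ((k : ℝ) * (1 - (if a0 ∈ S i then 1 else 0))) = (k : ℝ) * (2 / 3) := by
    have h1 : ∀ i, w i * ((k : ℝ) * (1 - (if a0 ∈ S i then 1 else 0))) =
        (k : ℝ) * (w i - w i * (if a0 ∈ S i then 1 else 0)) := by
      intro i; ring
    simp_rw [h1]
    rw [← mul_sum, sum_sub_distrib, hw1, ← hval, hxA a0 ha0]
    norm_num
  rw [hL, hR, hk] at hfin
  push_cast at hfin
  linarith

/-- **Hub lemma.** The vertices with a neighbour in one class of a hub and none in the other induce a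
bipartite graph. -/
lemma hub [Fintype V] [DecidableEq V] (G : SimpleGraph V) (hG : TPerfect G) (A B C : Set V)
    (hA : G.IsIndepSet A) (hB : G.IsIndepSet B) (hAB : ∀ v ∈ A, v ∉ B) (hT : Cn G (A ∪ B))
    (hC : ∀ c ∈ C, c ∉ A ∧ c ∉ B ∧ (∃ a ∈ A, G.Adj a c) ∧ ∀ b ∈ B, ¬ G.Adj b c) :
    ∃ β : V → Fin 2, ∀ u ∈ C, ∀ v ∈ C, G.Adj u v → β u ≠ β v := by
  classical
  have h1 : (G.induce C).Colorable 2 := by
    rw [SimpleGraph.two_colorable_iff_forall_loop_even]
    intro u q
    by_contra hodd
    rw [Nat.not_even_iff_odd] at hodd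
    have hlen : (q.map (SimpleGraph.Embedding.induce C).toHom).length = q.length :=
      SimpleGraph.Walk.length_map _ _
    apply hub_walk G hG A B hA hB hAB hT (q.map (SimpleGraph.Embedding.induce C).toHom)
      (by rw [hlen]; exact hodd)
    intro i
    apply hC
    unfold per
    rw [SimpleGraph.Walk.getVert_map]
    exact (q.getVert _).2
  obtain ⟨c⟩ := h1
  refine ⟨fun v => if h : v ∈ C then c ⟨v, h⟩ else 0, ?_⟩
  intro u hu v hv huv
  simp only [hu, hv, dif_pos]
  exact c.valid (by simpa using huv)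


/-- the choice of the colours of the next level: each old colour but the last one is used once, for the
vertices without a parent of this colour -/
lemma palette (q K : ℕ) (pi : Fin q → Fin K) (hpi : Function.Injective pi) (hK : 2 * q + 1 ≤ K) :
    ∃ pi' : Fin q × Fin 2 → Fin K, Function.Injective pi' ∧
      ∀ x a, pi' x = pi a → a < x.1 := by
  classical
  have hcard : Fintype.card (Fin (q + 1)) ≤ Fintype.card {c : Fin K // c ∉ Set.range pi} := by
    rw [Fintype.card_fin, Fintype.card_subtype_compl, Fintype.card_fin]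
    have h1 : Fintype.card {c : Fin K // c ∈ Set.range pi} = q :=
      (Fintype.card_congr (Equiv.ofInjective pi hpi)).symm.trans (Fintype.card_fin q)
    rw [h1]
    omega
  obtain ⟨e⟩ := Function.Embedding.nonempty_of_card_le hcard
  have he : ∀ i j, (e i : Fin K) = e j → i = j := fun i j h => e.injective (Subtype.ext h)
  have he2 : ∀ i a, (e i : Fin K) ≠ pi a := fun i a h => (e i).2 ⟨a, h.symm⟩
  refine ⟨fun x => if x.2 = 1 then e x.1.succ else if x.1.val = 0 then e 0 else
    pi ⟨x.1.val - 1, by omega⟩, ?_, ?_⟩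
  · rintro ⟨a, s⟩ ⟨b, t⟩ h
    simp only at h
    by_cases hs : s = 1
    · by_cases ht : t = 1
      · simp only [hs, ht, if_true] at h
        have := he _ _ h
        rw [Fin.succ_inj] at this
        rw [hs, ht, this]
      · simp only [hs, ht, if_true, if_false] at h
        by_cases hb : b.val = 0
        · simp only [hb, if_true] at h
          exact absurd (he _ _ h) (Fin.succ_ne_zero a)
        · simp only [hb, if_false] at h
          exact absurd h (he2 _ _)
    · by_cases ht : t = 1
      · simp only [hs, ht, if_true, if_false] at h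
        by_cases ha : a.val = 0
        · simp only [ha, if_true] at h
          exact absurd (he _ _ h).symm (Fin.succ_ne_zero b)
        · simp only [ha, if_false] at h
          exact absurd h.symm (he2 _ _)
      · have hst : s = t := by omega
        simp only [hs, ht, if_false] at h
        by_cases ha : a.val = 0
        · by_cases hb : b.val = 0
          · have : a = b := Fin.ext (by omega)
            rw [this, hst]
          · simp only [ha, hb, if_true, if_false] at h
            exact absurd h (he2 _ _)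
        · by_cases hb : b.val = 0
          · simp only [ha, hb, if_true, if_false] at h
            exact absurd h.symm (he2 _ _)
          · simp only [ha, hb, if_false] at h
            have h1 := hpi h
            rw [Fin.mk.injEq] at h1
            have : a = b := Fin.ext (by omega)
            rw [this, hst]
  · rintro ⟨a, s⟩ b h
    simp only at h ⊢
    by_cases hs : s = 1
    · simp only [hs, if_true] at h
      exact absurd h (he2 _ _)
    · simp only [hs, if_false] at h
      by_cases ha : a.val = 0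
      · simp only [ha, if_true] at h
        exact absurd h (he2 _ _)
      · simp only [ha, if_false] at h
        have h1 := hpi h
        rw [← h1, Fin.lt_def]
        simp only
        omega

/-- the state of the colouring after the levels `0, ..., i` (the levels are given by `dl` on the set
`R`): a proper colouring `col` of `B` and these levels with `K` colours, and `q` hubs `HA a, HB a` such
that the vertices of level `i` in `HA a` form the colour class of the colour `pi a` of the level `i` -/
def State (G : SimpleGraph V) (B R : Set V) (dl : V → ℕ) (K i q : ℕ) : Prop :=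
  ∃ (col : V → Fin K) (pi : Fin q → Fin K) (HA HB : Fin q → Set V),
    (∀ u v, (u ∈ B ∨ (u ∈ R ∧ dl u ≤ i)) → (v ∈ B ∨ (v ∈ R ∧ dl v ≤ i)) → G.Adj u v →
      col u ≠ col v) ∧
    Function.Injective pi ∧
    (∀ v ∈ R, dl v = i → ∃ a, v ∈ HA a ∧ col v = pi a) ∧
    (∀ a, G.IsIndepSet (HA a)) ∧ (∀ a, G.IsIndepSet (HB a)) ∧ (∀ a, ∀ v ∈ HA a, v ∉ HB a) ∧
    (∀ a, Cn G (HA a ∪ HB a)) ∧
    (∀ a, ∀ v ∈ HA a, v ∈ B ∨ (v ∈ R ∧ dl v ≤ i)) ∧
    (∀ a, ∀ v ∈ HB a, v ∈ B ∨ (v ∈ R ∧ dl v < i))

lemma step [Fintype V] [DecidableEq V] (G : SimpleGraph V) (hG : TPerfect G) (A B R : Set V)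
    (dl : V → ℕ) (K i q : ℕ)
    (hBA : ∀ b ∈ B, ∀ v, G.Adj b v → v ∈ A) (hA0 : ∀ v ∈ A, dl v = 0) (hRB : ∀ v ∈ R, v ∉ B)
    (hadj : ∀ u ∈ R, ∀ v ∈ R, G.Adj u v → dl v ≤ dl u + 1)
    (hpar : ∀ v ∈ R, ∀ n, dl v = n + 1 → ∃ u ∈ R, dl u = n ∧ G.Adj u v)
    (hq : 0 < q) (hK : 2 * q + 1 ≤ K) (hst : State G B R dl K i q) : State G B R dl K (i + 1) (q * 2) := by
  classical
  obtain ⟨col, pi, HA, HB, hcol, hpi, hcov, hHA, hHB, hAB, hcn, hHAs, hHBs⟩ := hst
  obtain ⟨pi', hpi', hpi2⟩ := palette q K pi hpi hK
  -- the first class with a parent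
  have hidx : ∀ v, ∃ a : Fin q, v ∈ R → dl v = i + 1 →
      (∃ u ∈ HA a, u ∈ R ∧ dl u = i ∧ G.Adj u v) ∧
      ∀ a' < a, ∀ u ∈ HA a', u ∈ R → dl u = i → ¬ G.Adj u v := by
    intro v
    by_cases hv : v ∈ R ∧ dl v = i + 1
    · obtain ⟨u, hu, hui, huv⟩ := hpar v hv.1 i hv.2
      obtain ⟨a, ha, _⟩ := hcov u hu hui
      have hne : (univ.filter (fun a : Fin q => ∃ u ∈ HA a, u ∈ R ∧ dl u = i ∧ G.Adj u v)).Nonempty :=
        ⟨a, by simp only [mem_filter, mem_univ, true_and]; exact ⟨u, ha, hu, hui, huv⟩⟩
      refine ⟨_, fun _ _ => ⟨(mem_filter.1 (min'_mem _ hne)).2, ?_⟩⟩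
      intro a' ha' u' hu' hu'R hu'i hadj'
      have h1 := min'_le (univ.filter (fun a : Fin q => ∃ u ∈ HA a, u ∈ R ∧ dl u = i ∧ G.Adj u v)) a'
        (by simp only [mem_filter, mem_univ, true_and]; exact ⟨u', hu', hu'R, hu'i, hadj'⟩)
      exact absurd ha' (not_lt.2 h1)
    · exact ⟨⟨0, hq⟩, fun h1 h2 => absurd ⟨h1, h2⟩ hv⟩
  choose idx hidx using hidx
  set P : Fin q → Set V := fun a => {v | v ∈ R ∧ dl v = i + 1 ∧ idx v = a} with hP
  have hBP : ∀ a, ∀ c ∈ P a, ∀ b ∈ HB a, ¬ G.Adj b c := by
    intro a c hc b hb hbc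
    rcases hHBs a b hb with h1 | h1
    · have h2 := hA0 c (hBA b h1 c hbc)
      have h3 := hc.2.1
      omega
    · have h2 := hadj b h1.1 c hc.1 hbc
      have h3 := hc.2.1
      omega
  have hβ : ∀ a, ∃ β : V → Fin 2, ∀ u ∈ P a, ∀ v ∈ P a, G.Adj u v → β u ≠ β v := by
    intro a
    apply hub G hG (HA a) (HB a) (P a) (hHA a) (hHB a) (hAB a) (hcn a)
    intro c hc
    refine ⟨?_, ?_, ?_, hBP a c hc⟩
    · intro h
      rcases hHAs a c h with h1 | h1
      · exact hRB c hc.1 h1
      · have h2 := hc.2.1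
        omega
    · intro h
      rcases hHBs a c h with h1 | h1
      · exact hRB c hc.1 h1
      · have h2 := hc.2.1
        omega
    · obtain ⟨⟨u, hu, _, _, huc⟩, _⟩ := hidx c hc.1 hc.2.1
      rw [hc.2.2] at hu
      exact ⟨u, hu, huc⟩
  choose β hβ using hβ
  set e := (finProdFinEquiv (m := q) (n := 2)) with he
  refine ⟨fun v => if v ∈ R ∧ dl v = i + 1 then pi' (idx v, β (idx v) v) else col v,
    fun j => pi' (e.symm j), fun j => HB (e.symm j).1 ∪ {v | v ∈ P (e.symm j).1 ∧
      β (e.symm j).1 v = (e.symm j).2}, fun j => HA (e.symm j).1, ?_, ?_, ?_, ?_, ?_, ?_, ?_, ?_, ?_⟩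
  · -- the colouring is proper
    have hnew : ∀ u v, u ∈ R → dl u = i + 1 → (v ∈ B ∨ (v ∈ R ∧ dl v ≤ i)) → G.Adj u v →
        pi' (idx u, β (idx u) u) ≠ col v := by
      intro u v hu hui hv huv heq
      rcases hv with hv | hv
      · have := hA0 u (hBA v hv u huv.symm)
        omega
      · have h1 := hadj v hv.1 u hu huv.symm
        have h2 : dl v = i := by omega
        obtain ⟨a, ha, hca⟩ := hcov v hv.1 h2
        rw [hca] at heq
        have h3 := hpi2 _ _ heq
        exact (hidx u hu hui).2 a h3 v ha hv.1 h2 huv.symm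
    have hcase : ∀ v, (v ∈ B ∨ (v ∈ R ∧ dl v ≤ i + 1)) → ¬ (v ∈ R ∧ dl v = i + 1) →
        (v ∈ B ∨ (v ∈ R ∧ dl v ≤ i)) := by
      intro v hv hn
      rcases hv with hv | hv
      · exact Or.inl hv
      · refine Or.inr ⟨hv.1, ?_⟩
        have : dl v ≠ i + 1 := fun h => hn ⟨hv.1, h⟩
        omega
    intro u v hu hv huv
    dsimp only
    by_cases h1 : u ∈ R ∧ dl u = i + 1
    · by_cases h2 : v ∈ R ∧ dl v = i + 1
      · rw [if_pos h1, if_pos h2]
        intro heq
        have h3 := hpi' heq
        rw [Prod.mk.injEq] at h3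
        have h4 : v ∈ P (idx u) := ⟨h2.1, h2.2, h3.1.symm⟩
        have h5 : u ∈ P (idx u) := ⟨h1.1, h1.2, rfl⟩
        apply hβ (idx u) u h5 v h4 huv
        rw [h3.2, ← h3.1]
      · rw [if_pos h1, if_neg h2]
        exact hnew u v h1.1 h1.2 (hcase v hv h2) huv
    · by_cases h2 : v ∈ R ∧ dl v = i + 1
      · rw [if_neg h1, if_pos h2]
        exact (hnew v u h2.1 h2.2 (hcase u hu h1) huv.symm).symm
      · rw [if_neg h1, if_neg h2]
        exact hcol u v (hcase u hu h1) (hcase v hv h2) huv
  · exact hpi'.comp e.symm.injective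
  · intro v hv hvi
    refine ⟨e (idx v, β (idx v) v), ?_, ?_⟩
    · right
      rw [Set.mem_ofPred_eq, Equiv.symm_apply_apply]
      exact ⟨⟨hv, hvi, rfl⟩, rfl⟩
    · dsimp only
      rw [if_pos ⟨hv, hvi⟩, Equiv.symm_apply_apply]
  · intro j u hu v hv _ huv
    rcases hu with hu | hu
    · rcases hv with hv | hv
      · exact hHB _ hu hv huv.ne huv
      · exact hBP _ v hv.1 u hu huv
    · rcases hv with hv | hv
      · exact hBP _ u hu.1 v hv huv.symm
      · exact hβ _ u hu.1 v hv.1 huv (hu.2.trans hv.2.symm)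
  · intro j
    exact hHA _
  · intro j v hv hv2
    rcases hv with hv | hv
    · exact hAB _ v hv2 hv
    · have h2 := hv.1.2.1
      rcases hHAs _ v hv2 with h1 | h1
      · exact hRB v hv.1.1 h1
      · omega
  · intro j
    have h1 := cn_add G (HA (e.symm j).1 ∪ HB (e.symm j).1) {v | v ∈ P (e.symm j).1 ∧
      β (e.symm j).1 v = (e.symm j).2} (hcn _) (by
        intro v hv
        obtain ⟨⟨u, hu, _, _, huc⟩, _⟩ := hidx v hv.1.1 hv.1.2.1
        rw [hv.1.2.2] at hu
        exact ⟨u, Or.inl hu, huc⟩)
    have h2 : HB (e.symm j).1 ∪ {v | v ∈ P (e.symm j).1 ∧ β (e.symm j).1 v = (e.symm j).2} ∪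
        HA (e.symm j).1 = HA (e.symm j).1 ∪ HB (e.symm j).1 ∪ {v | v ∈ P (e.symm j).1 ∧
      β (e.symm j).1 v = (e.symm j).2} := by
      ext v
      simp only [Set.mem_union]
      tauto
    simp only
    rw [h2]
    exact h1
  · intro j v hv
    rcases hv with hv | hv
    · rcases hHBs _ v hv with h1 | h1
      · exact Or.inl h1
      · exact Or.inr ⟨h1.1, by omega⟩
    · exact Or.inr ⟨hv.1.1, by have := hv.1.2.1; omega⟩
  · intro j v hv
    rcases hHAs _ v hv with h1 | h1
    · exact Or.inl h1
    · exact Or.inr ⟨h1.1, by omega⟩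

/-- **Main result.** Let `T = A ∪ B` be a connected induced bipartite subgraph of the t-perfect graph
`G` with classes `A`, `B` such that no vertex outside `T` has a neighbour in `B`. Then the subgraph
induced by the vertices at distance at most `d` from `T` is `(2 ^ d + 1)`-colourable. -/
theorem result {V : Type*} [Fintype V] [DecidableEq V] (G : SimpleGraph V) (hG : TPerfect G)
    (A B : Set V) (hA : G.IsIndepSet A) (hB : G.IsIndepSet B) (hAB : Disjoint A B)
    (hT : (G.induce (A ∪ B)).Connected) (hBA : ∀ b ∈ B, ∀ v, G.Adj b v → v ∈ A) (d : ℕ) :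
    (G.induce {v | ∃ t ∈ A ∪ B, ∃ p : G.Walk t v, p.length ≤ d}).Colorable (2 ^ d + 1) := by
  classical
  have hAB' : ∀ v ∈ A, v ∉ B := fun v hv hv2 => Set.disjoint_left.1 hAB hv hv2
  -- the vertices reachable from `A`, outside `B`
  set Q : ℕ → V → Prop := fun n v => ∃ a ∈ A, ∃ p : G.Walk a v, p.length = n with hQ
  set R : Set V := {v | v ∉ B ∧ ∃ n, Q n v} with hR
  set dl : V → ℕ := fun v => sInf {n | Q n v} with hdl
  have hdlmem : ∀ v ∈ R, Q (dl v) v := by
    intro v hv
    exact Nat.sInf_mem (s := {n | Q n v}) hv.2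
  have hdlle : ∀ v n, Q n v → dl v ≤ n := fun v n h => Nat.sInf_le h
  have hA0 : ∀ v ∈ A, dl v = 0 := by
    intro v hv
    have := hdlle v 0 ⟨v, hv, SimpleGraph.Walk.nil, rfl⟩
    omega
  have hAR : ∀ v ∈ A, v ∈ R := fun v hv => ⟨hAB' v hv, 0, v, hv, SimpleGraph.Walk.nil, rfl⟩
  have hadj : ∀ u ∈ R, ∀ v ∈ R, G.Adj u v → dl v ≤ dl u + 1 := by
    intro u hu v _ huv
    obtain ⟨a, ha, p, hp⟩ := hdlmem u hu
    apply hdlle
    exact ⟨a, ha, p.concat huv, by rw [SimpleGraph.Walk.length_concat, hp]⟩
  have hpar : ∀ v ∈ R, ∀ n, dl v = n + 1 → ∃ u ∈ R, dl u = n ∧ G.Adj u v := by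
    intro v hv n hn
    obtain ⟨a, ha, p, hp⟩ := hdlmem v hv
    rw [hn] at hp
    have hnil : ¬ p.Nil := by
      intro h
      rw [← SimpleGraph.Walk.length_eq_zero_iff] at h
      omega
    have hadjp := p.adj_penultimate hnil
    have hQu : Q n p.penultimate := ⟨a, ha, p.dropLast, by
      rw [SimpleGraph.Walk.length_dropLast]; omega⟩
    have huB : p.penultimate ∉ B := by
      intro h
      have := hA0 v (hBA _ h v hadjp)
      omega
    have huR : p.penultimate ∈ R := ⟨huB, n, hQu⟩
    refine ⟨p.penultimate, huR, ?_, hadjp⟩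
    have h1 := hdlle _ _ hQu
    have h2 := hadj _ huR v hv hadjp
    omega
  have hd0 : State G B R dl (2 ^ d + 1) 0 1 := by
    have h2 : 0 < 2 ^ d := by positivity
    refine ⟨fun v => if v ∈ B then ⟨1, by omega⟩ else ⟨0, by omega⟩, fun _ => ⟨0, by omega⟩,
      fun _ => A, fun _ => B, ?_, ?_, ?_, fun _ => hA, fun _ => hB, fun _ => hAB',
      fun _ => cn_of_connected G _ hT, ?_, fun _ v hv => Or.inl hv⟩
    · have hz : ∀ v, (v ∈ B ∨ (v ∈ R ∧ dl v ≤ 0)) → v ∉ B → v ∈ A := by
        intro v hv hvB
        rcases hv with hv | hv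
        · exact absurd hv hvB
        · obtain ⟨a, ha, p, hp⟩ := hdlmem v hv.1
          have h3 : p.length = 0 := by omega
          rw [← SimpleGraph.Walk.eq_of_length_eq_zero h3]
          exact ha
      intro u v hu hv huv
      dsimp only
      by_cases h3 : u ∈ B
      · by_cases h4 : v ∈ B
        · exact absurd huv (hB h3 h4 huv.ne)
        · rw [if_pos h3, if_neg h4]
          intro h; rw [Fin.mk.injEq] at h; omega
      · by_cases h4 : v ∈ B
        · rw [if_neg h3, if_pos h4]
          intro h; rw [Fin.mk.injEq] at h; omega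
        · exact absurd huv (hA (hz u hu h3) (hz v hv h4) huv.ne)
    · intro a b _
      exact Subsingleton.elim a b
    · intro v hv hv0
      obtain ⟨a, ha, p, hp⟩ := hdlmem v hv
      rw [hv0] at hp
      have h3 := SimpleGraph.Walk.eq_of_length_eq_zero hp
      rw [h3] at ha
      refine ⟨0, ha, ?_⟩
      dsimp only
      rw [if_neg (hAB' v ha)]
    · intro _ v hv
      exact Or.inr ⟨hAR v hv, le_of_eq (hA0 v hv)⟩
  have hmain : ∀ i, i ≤ d → State G B R dl (2 ^ d + 1) i (2 ^ i) := by
    intro i
    induction i with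
    | zero => intro _; exact hd0
    | succ i ih =>
      intro hi
      rw [pow_succ]
      refine step G hG A B R dl (2 ^ d + 1) i (2 ^ i) hBA hA0 (fun v hv => hv.1) hadj hpar
        (by positivity) ?_ (ih (by omega))
      have h1 : 2 ^ (i + 1) ≤ 2 ^ d := Nat.pow_le_pow_right (by norm_num) hi
      rw [pow_succ] at h1
      omega
  obtain ⟨col, _, _, _, hcol, _⟩ := hmain d le_rfl
  have hS : ∀ v ∈ {v | ∃ t ∈ A ∪ B, ∃ p : G.Walk t v, p.length ≤ d}, v ∈ B ∨ (v ∈ R ∧ dl v ≤ d) := by
    rintro v ⟨t, ht, p, hp⟩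
    by_cases hvB : v ∈ B
    · exact Or.inl hvB
    · right
      rcases ht with ht | ht
      · have h1 : Q p.length v := ⟨t, ht, p, rfl⟩
        exact ⟨⟨hvB, _, h1⟩, (hdlle _ _ h1).trans hp⟩
      · cases p with
        | nil => exact absurd ht hvB
        | cons h q =>
          have h1 : Q q.length v := ⟨_, hBA _ ht _ h, q, rfl⟩
          rw [SimpleGraph.Walk.length_cons] at hp
          exact ⟨⟨hvB, _, h1⟩, (hdlle _ _ h1).trans (by omega)⟩
  exact ⟨⟨fun v => col v, by
    intro u v huv heq
    exact hcol u v (hS u u.2) (hS v v.2) huv heq⟩⟩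

/-- **Corollary (balls, radius).** If `G` is t-perfect without odd closed walks shorter than `2 s + 1`,
then every ball of radius `s - 1 + d` induces a `(2 ^ d + 1)`-colourable graph. For `d = 1`: a t-perfect
graph with odd girth at least `2 s + 1` and radius at most `s` is 3-colourable, in particular every
triangle-free t-perfect graph of radius at most 2. -/
theorem ball {V : Type*} [Fintype V] [DecidableEq V] (G : SimpleGraph V) (hG : TPerfect G)
    (s : ℕ) (hs : 1 ≤ s) (hodd : ∀ (u : V) (p : G.Walk u u), Odd p.length → 2 * s + 1 ≤ p.length)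
    (r : V) (d : ℕ) :
    (G.induce {v | ∃ p : G.Walk r v, p.length ≤ s - 1 + d}).Colorable (2 ^ d + 1) := by
  classical
  set Q : ℕ → V → Prop := fun n v => ∃ p : G.Walk r v, p.length = n with hQ
  set l : V → ℕ := fun v => sInf {n | Q n v} with hl
  have hlmem : ∀ v n, Q n v → Q (l v) v := by
    intro v n hv
    exact Nat.sInf_mem (s := {n | Q n v}) ⟨n, hv⟩
  have hlle : ∀ v n, Q n v → l v ≤ n := fun v n h => Nat.sInf_le h
  set X : Set V := {v | Q (l v) v ∧ l v ≤ s - 1} with hX
  have hadj : ∀ u v, Q (l u) u → G.Adj u v → Q (l v) v ∧ l v ≤ l u + 1 := by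
    intro u v hu huv
    obtain ⟨p, hp⟩ := hu
    have h1 : Q (l u + 1) v := ⟨p.concat huv, by rw [SimpleGraph.Walk.length_concat, hp]⟩
    exact ⟨hlmem _ _ h1, hlle _ _ h1⟩
  -- adjacent vertices of the ball have levels of different parity
  have hpar : ∀ u ∈ X, ∀ v ∈ X, G.Adj u v → l u % 2 ≠ l v % 2 := by
    intro u hu v hv huv heq
    obtain ⟨p, hp⟩ := hu.1
    obtain ⟨q, hq⟩ := hv.1
    have hlen : ((p.concat huv).append q.reverse).length = l u + 1 + l v := by
      rw [SimpleGraph.Walk.length_append, SimpleGraph.Walk.length_concat,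
        SimpleGraph.Walk.length_reverse, hp, hq]
    have h1 := hodd r ((p.concat huv).append q.reverse) (by
      rw [hlen, Nat.odd_iff]; omega)
    rw [hlen] at h1
    have h2 := hu.2
    have h3 := hv.2
    omega
  have hrX : r ∈ X := by
    have h1 : Q 0 r := ⟨SimpleGraph.Walk.nil, rfl⟩
    exact ⟨hlmem _ _ h1, (hlle _ _ h1).trans (Nat.zero_le _)⟩
  have hlr : l r = 0 := by
    have h1 : Q 0 r := ⟨SimpleGraph.Walk.nil, rfl⟩
    have := hlle _ _ h1
    omega
  have hUX : ∀ v, v ∈ X → ∀ Y : Set V, Y = X → v ∈ Y := fun v hv Y hY => by rw [hY]; exact hv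
  set A : Set V := {v | v ∈ X ∧ l v % 2 = (s - 1) % 2} with hA
  set B : Set V := {v | v ∈ X ∧ l v % 2 ≠ (s - 1) % 2} with hB
  have hABX : A ∪ B = X := by
    ext v
    simp only [hA, hB, Set.mem_union, Set.mem_ofPred_eq]
    tauto
  have hconn : (G.induce X).Connected := by
    have hreach : ∀ n, ∀ v (hv : v ∈ X), l v = n → (G.induce X).Reachable ⟨r, hrX⟩ ⟨v, hv⟩ := by
      intro n
      induction n with
      | zero =>
        intro v hv h0
        obtain ⟨p, hp⟩ := hv.1
        rw [h0] at hp
        have h1 := SimpleGraph.Walk.eq_of_length_eq_zero hp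
        subst h1
        exact SimpleGraph.Reachable.refl _
      | succ n ih =>
        intro v hv hn
        obtain ⟨p, hp⟩ := hv.1
        rw [hn] at hp
        have hnil : ¬ p.Nil := by
          intro h
          rw [← SimpleGraph.Walk.length_eq_zero_iff] at h
          omega
        have hadjp := p.adj_penultimate hnil
        have hQu : Q n p.penultimate := ⟨p.dropLast, by
          rw [SimpleGraph.Walk.length_dropLast]; omega⟩
        have h1 := hlle _ _ hQu
        have h2 := hadj _ v (hlmem _ _ hQu) hadjp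
        have h3 := hv.2
        have huX : p.penultimate ∈ X := ⟨hlmem _ _ hQu, by omega⟩
        refine (ih _ huX (by omega)).trans ?_
        apply SimpleGraph.Adj.reachable
        exact hadjp
    rw [SimpleGraph.connected_iff_exists_forall_reachable]
    exact ⟨⟨r, hrX⟩, fun v => hreach _ v.1 v.2 rfl⟩
  have hmain := result G hG A B
    (fun u hu v hv _ huv => hpar u hu.1 v hv.1 huv (hu.2.trans hv.2.symm))
    (fun u hu v hv _ huv => hpar u hu.1 v hv.1 huv (by
      have h1 := hu.2
      have h2 := hv.2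
      omega))
    (Set.disjoint_left.2 (fun v h1 h2 => h2.2 h1.2))
    (by rw [hABX]; exact hconn) (by
      intro b hb v hbv
      have h1 := hb.1.2
      have h2 := hb.2
      have h3 := hadj b v hb.1.1 hbv
      have h4 : v ∈ X := ⟨h3.1, by omega⟩
      have h5 := hpar b hb.1 v h4 hbv
      exact ⟨h4, by omega⟩) d
  have hsub : {v | ∃ p : G.Walk r v, p.length ≤ s - 1 + d} ⊆
      {v | ∃ t ∈ A ∪ B, ∃ p : G.Walk t v, p.length ≤ d} := by
    rintro v ⟨p, hp⟩
    rw [hABX]
    by_cases h : p.length ≤ s - 1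
    · have h1 : Q p.length v := ⟨p, rfl⟩
      exact ⟨v, ⟨hlmem _ _ h1, (hlle _ _ h1).trans h⟩, SimpleGraph.Walk.nil, Nat.zero_le _⟩
    · have h1 : Q (s - 1) (p.getVert (s - 1)) := ⟨p.take (s - 1), by
        rw [SimpleGraph.Walk.take_length]; omega⟩
      exact ⟨p.getVert (s - 1), ⟨hlmem _ _ h1, hlle _ _ h1⟩, p.drop (s - 1), by
        rw [SimpleGraph.Walk.drop_length]; omega⟩
  exact hmain.of_hom (SimpleGraph.induceHomOfLE G hsub).toHom

end Pool.Agent.Results.MP_f570d5_co.HubDistance
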