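import Mathlib

set_option autoImplicit false

namespace Pool.Agent.Results.MP_f570d5_co.OddHoleDefects

open Finset

variable {V : Type*} [Fintype V] [DecidableEq V]

/-- `G` is t-perfect: the stable set polytope (convex hull of the incidence vectors of the stable sets)
is described by nonnegativity, the edge inequalities and the odd cycle inequalities. -/
def TPerfect (G : SimpleGraph V) : Prop :=
  convexHull ℝ {x : V → ℝ | ∃ s : Set V, G.IsIndepSet s ∧ x = s.indicator (fun _ => (1 : ℝ))} =
    {x : V → ℝ | (∀ v, 0 ≤ x v) ∧ (∀ u v, G.Adj u v → x u + x v ≤ 1) ∧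
      (∀ (u : V) (p : G.Walk u u), p.IsCycle → Odd p.length →
        ∑ v ∈ p.support.toFinset, x v ≤ ((p.length : ℝ) - 1) / 2)}

/-- `C` is the vertex set of a chordless odd cycle of `G` (a triangle or an odd hole): for some odd
`n ≥ 3` its vertices are `n` different vertices `f 0, …, f (n-1)`, and `f i`, `f j` are adjacent
exactly when `i`, `j` are consecutive modulo `n`. -/
def IsOddHole (G : SimpleGraph V) (C : Finset V) : Prop :=
  ∃ n : ℕ, 3 ≤ n ∧ Odd n ∧ ∃ f : ℕ → V, Set.InjOn f (Set.Iio n) ∧ C = (range n).image f ∧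
    ∀ i < n, ∀ j < n, (G.Adj (f i) (f j) ↔ (j = (i + 1) % n ∨ i = (j + 1) % n))

/-- the relative defect `1 - 2 x(C) / (|C| - 1)` of the odd cycle inequality of `C` at `x` -/
noncomputable def defect (x : V → ℝ) (C : Finset V) : ℝ :=
  1 - 2 * (∑ v ∈ C, x v) / ((C.card : ℝ) - 1)

omit [Fintype V] [DecidableEq V] in
lemma sum_rot (n : ℕ) (k : ℕ) : ∀ g : ℕ → ℝ,
    ∑ i ∈ range n, g ((i + k) % n) = ∑ i ∈ range n, g i := by
  induction k with
  | zero =>
    intro g
    apply sum_congr rfl
    intro i hi
    rw [add_zero, Nat.mod_eq_of_lt (mem_range.1 hi)]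
  | succ k ih =>
    intro g
    have h1 := ih (fun j => g ((j + 1) % n))
    have h2 : ∑ i ∈ range n, g ((i + (k + 1)) % n) =
        ∑ i ∈ range n, g (((i + k) % n + 1) % n) := by
      apply sum_congr rfl
      intro i _
      congr 1
      rw [Nat.mod_add_mod, add_assoc]
    rw [h2, h1]
    rcases n with _ | n
    · simp
    · rw [sum_range_succ, sum_range_succ' (fun i => g i)]
      congr 1
      · apply sum_congr rfl
        intro i hi
        rw [Nat.mod_eq_of_lt (by have := mem_range.1 hi; omega)]
      · rw [Nat.mod_self]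

omit [Fintype V] [DecidableEq V] in
lemma pair_sum (G : SimpleGraph V) (x : V → ℝ) (he : ∀ u v, G.Adj u v → x u + x v ≤ 1)
    (f : ℕ → V) : ∀ (m a : ℕ), (∀ i, a ≤ i → i + 1 < a + 2 * m → G.Adj (f i) (f (i + 1))) →
    ∑ i ∈ range (2 * m), x (f (a + i)) ≤ (m : ℝ) := by
  intro m
  induction m with
  | zero => intro a _; simp
  | succ m ih =>
    intro a h
    rw [show 2 * (m + 1) = 2 * m + 1 + 1 by ring, sum_range_succ, sum_range_succ]
    have h1 := ih a (fun i hi hi2 => h i hi (by omega))
    have h2 := he _ _ (h (a + 2 * m) (by omega) (by omega))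
    rw [show a + (2 * m + 1) = a + 2 * m + 1 by ring]
    push_cast
    linarith

/-- closed walks of length `n` as sequences -/
def Cl (G : SimpleGraph V) (n : ℕ) (f : ℕ → V) : Prop :=
  ∀ i < n, G.Adj (f i) (f ((i + 1) % n))

omit [Fintype V] [DecidableEq V] in
lemma Cl.rot {G : SimpleGraph V} {n : ℕ} {f : ℕ → V} (h : Cl G n f) (k : ℕ) :
    Cl G n (fun t => f ((t + k) % n)) := by
  intro i hi
  have hn : 0 < n := by omega
  have h1 := h ((i + k) % n) (Nat.mod_lt _ hn)
  simp only
  have h2 : ((i + 1) % n + k) % n = ((i + k) % n + 1) % n := by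
    rw [Nat.mod_add_mod, Nat.mod_add_mod]
    congr 1
    ring
  rw [h2]
  exact h1

omit [Fintype V] [DecidableEq V] in
lemma Cl.succ {G : SimpleGraph V} {n : ℕ} {f : ℕ → V} (h : Cl G n f) (i : ℕ) (hi : i + 1 < n) :
    G.Adj (f i) (f (i + 1)) := by
  have h1 := h i (by omega)
  rwa [Nat.mod_eq_of_lt hi] at h1

omit [Fintype V] [DecidableEq V] in
lemma Cl.last {G : SimpleGraph V} {n : ℕ} {f : ℕ → V} (h : Cl G n f) (hn : 0 < n) :
    G.Adj (f (n - 1)) (f 0) := by
  have h1 := h (n - 1) (by omega)
  rwa [show n - 1 + 1 = n by omega, Nat.mod_self] at h1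

omit [Fintype V] [DecidableEq V] in
lemma Cl.mk' {G : SimpleGraph V} {n : ℕ} {f : ℕ → V}
    (h : ∀ i, i + 1 < n → G.Adj (f i) (f (i + 1))) (hl : G.Adj (f (n - 1)) (f 0)) : Cl G n f := by
  intro i hi
  by_cases h1 : i + 1 < n
  · rw [Nat.mod_eq_of_lt h1]; exact h i h1
  · have h2 : i = n - 1 := by omega
    subst h2
    rw [show n - 1 + 1 = n by omega, Nat.mod_self]
    exact hl

lemma split_range (F : ℕ → ℝ) (n a b : ℕ) (h : n = a + b) :
    ∑ t ∈ range n, F t = ∑ t ∈ range a, F t + ∑ t ∈ range b, F (a + t) := by
  subst h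
  exact sum_range_add ..

omit [Fintype V] in
theorem key (G : SimpleGraph V) (x : V → ℝ) (he : ∀ u v, G.Adj u v → x u + x v ≤ 1) (W : Set V)
    (hh : ∀ C : Finset V, IsOddHole G C → (C : Set V) ⊆ W →
      ∑ v ∈ C, x v ≤ ((C.card : ℝ) - 1) / 2) :
    ∀ n : ℕ, Odd n → ∀ f : ℕ → V, Cl G n f → (∀ i < n, f i ∈ W) →
      ∑ i ∈ range n, x (f i) ≤ ((n : ℝ) - 1) / 2 := by
  intro n
  induction n using Nat.strong_induction_on with
  | _ n ih =>
  intro hn f hf hW
  have hn0 : 0 < n := hn.pos
  have hn3 : 3 ≤ n := by
    by_contra hlt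
    have h1 : n = 1 := by
      obtain ⟨k, hk⟩ := hn
      omega
    subst h1
    exact G.irrefl (hf 0 (by norm_num))
  obtain ⟨q, hq⟩ := hn
  have hnq : ((n : ℝ) - 1) / 2 = (q : ℝ) := by
    rw [hq]; push_cast; ring
  rw [hnq]
  -- after a rotation the relevant pair is `(0, k)`
  have main : ∀ g : ℕ → V, Cl G n g → (∀ i < n, g i ∈ W) → ∀ k, 0 < k → k < n →
      (g 0 = g k ∨ (2 ≤ k ∧ k + 1 < n ∧ G.Adj (g 0) (g k))) →
      ∑ t ∈ range n, x (g t) ≤ (q : ℝ) := by
    intro g hgc hgW k hk0 hkn hcase
    rcases hcase with heq | ⟨hk2, hkn2, hadj⟩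
    · rcases Nat.even_or_odd' k with ⟨c, hc | hc⟩
      · -- second part is an odd closed walk
        have h1 := ih (n - k) (by omega) ⟨q - c, by omega⟩ (fun t => g (k + t))
          (Cl.mk' (fun t ht => hgc.succ (k + t) (by omega)) (by
            have := hgc.last hn0
            rw [heq] at this
            rw [show k + (n - k - 1) = n - 1 by omega, add_zero]
            exact this))
          (fun t ht => hgW _ (by omega))
        have h2 := pair_sum G x he g c 0 (fun t _ ht => hgc.succ t (by omega))
        rw [split_range (fun t => x (g t)) n k (n - k) (by omega)]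
        have h3 : ((n - k : ℕ) : ℝ) = (n : ℝ) - k := by push_cast [hkn.le]; ring
        rw [h3] at h1
        simp only [zero_add] at h2
        rw [← hc] at h2
        have h4 : (k : ℝ) = 2 * c := by exact_mod_cast hc
        have h5 : (n : ℝ) = 2 * q + 1 := by exact_mod_cast hq
        linarith
      · -- first part is an odd closed walk
        have h1 := ih k hkn ⟨c, hc⟩ g
          (Cl.mk' (fun t ht => hgc.succ t (by omega)) (by
            rw [heq]
            have := hgc.succ (k - 1) (by omega)
            rwa [show k - 1 + 1 = k by omega] at this))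
          (fun t ht => hgW _ (by omega))
        have h2 := pair_sum G x he g (q - c) k (fun t _ ht => hgc.succ t (by omega))
        rw [split_range (fun t => x (g t)) n k (2 * (q - c)) (by omega)]
        have h3 : ((q - c : ℕ) : ℝ) = (q : ℝ) - c := by
          rw [Nat.cast_sub (by omega)]
        rw [h3] at h2
        have h4 : (k : ℝ) = 2 * c + 1 := by exact_mod_cast hc
        linarith
    · rcases Nat.even_or_odd' k with ⟨c, hc | hc⟩
      · -- g 0, ..., g k is an odd closed walk
        have h1 := ih (k + 1) (by omega) ⟨c, by omega⟩ g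
          (Cl.mk' (fun t ht => hgc.succ t (by omega)) (by simpa using hadj.symm))
          (fun t ht => hgW _ (by omega))
        have h2 := pair_sum G x he g (q - c) (k + 1) (fun t _ ht => hgc.succ t (by omega))
        rw [split_range (fun t => x (g t)) n (k + 1) (2 * (q - c)) (by omega)]
        have h3 : ((q - c : ℕ) : ℝ) = (q : ℝ) - c := by
          rw [Nat.cast_sub (by omega)]
        rw [h3] at h2
        have h4 : (k : ℝ) = 2 * c := by exact_mod_cast hc
        push_cast at h1
        linarith
      · -- g k, ..., g (n-1), g 0 is an odd closed walk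
        have h1 := ih (n - k + 1) (by omega) ⟨q - c, by omega⟩
          (fun t => if t < n - k then g (k + t) else g 0)
          (Cl.mk' (fun t ht => by
            have ht1 : t < n - k := by omega
            simp only [ht1, if_true]
            by_cases ht2 : t + 1 < n - k
            · simp only [ht2, if_true]
              exact hgc.succ (k + t) (by omega)
            · simp only [ht2, if_false]
              rw [show k + t = n - 1 by omega]
              exact hgc.last hn0) (by
            have h0 : 0 < n - k := by omega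
            have h0' : ¬ (n - k + 1 - 1 < n - k) := by omega
            simp only [h0, h0', if_true, if_false, add_zero]
            exact hadj))
          (fun t ht => by
            split_ifs
            · exact hgW _ (by omega)
            · exact hgW _ hn0)
        rw [sum_range_succ] at h1
        simp only [lt_irrefl, if_false] at h1
        have h1' : ∑ t ∈ range (n - k), x (if t < n - k then g (k + t) else g 0) =
            ∑ t ∈ range (n - k), x (g (k + t)) := by
          apply sum_congr rfl
          intro t ht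
          rw [if_pos (mem_range.1 ht)]
        rw [h1'] at h1
        have h2 := pair_sum G x he g c 1 (fun t _ ht => hgc.succ t (by omega))
        rw [split_range (fun t => x (g t)) n k (n - k) (by omega),
          split_range (fun t => x (g t)) k 1 (2 * c) (by omega)]
        simp only [range_one, sum_singleton]
        have h3 : ((n - k + 1 : ℕ) : ℝ) = (n : ℝ) - k + 1 := by
          push_cast [hkn.le]; ring
        rw [h3] at h1
        have h4 : (k : ℝ) = 2 * c + 1 := by exact_mod_cast hc
        have h5 : (n : ℝ) = 2 * q + 1 := by exact_mod_cast hq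
        linarith
  -- reduction to the rotated situation
  have rot : ∀ i k, 0 < k → k < n →
      (f (i % n) = f ((k + i) % n) ∨ (2 ≤ k ∧ k + 1 < n ∧ G.Adj (f (i % n)) (f ((k + i) % n)))) →
      ∑ t ∈ range n, x (f t) ≤ (q : ℝ) := by
    intro i k hk0 hkn hcase
    have h1 := main (fun t => f ((t + i) % n)) (hf.rot i) (fun t _ => hW _ (Nat.mod_lt _ hn0)) k
      hk0 hkn (by simpa using hcase)
    rwa [sum_rot n i (fun t => x (f t))] at h1
  by_cases hinj : Set.InjOn f (Set.Iio n)
  · by_cases hch : ∃ i j, i < j ∧ j < n ∧ G.Adj (f i) (f j) ∧ j ≠ i + 1 ∧ ¬ (i = 0 ∧ j = n - 1)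
    · obtain ⟨i, j, hij, hjn, hadj, hne, hne2⟩ := hch
      apply rot i (j - i) (by omega) (by omega)
      right
      refine ⟨by omega, ?_, ?_⟩
      · by_contra hcon
        exact hne2 ⟨by omega, by omega⟩
      · rw [show j - i + i = j by omega, Nat.mod_eq_of_lt hjn, Nat.mod_eq_of_lt (by omega)]
        exact hadj
    · push Not at hch
      have hadj : ∀ i < n, ∀ j < n, (G.Adj (f i) (f j) ↔ (j = (i + 1) % n ∨ i = (j + 1) % n)) := by
        have hlt : ∀ i j, i < j → j < n → G.Adj (f i) (f j) → (j = (i + 1) % n ∨ i = (j + 1) % n) := by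
          intro i j hij hjn ha
          by_cases h1 : j = i + 1
          · left
            rw [Nat.mod_eq_of_lt (by omega)]
            exact h1
          · right
            obtain ⟨h2, h3⟩ := hch i j hij hjn ha h1
            rw [h2, h3, show n - 1 + 1 = n by omega, Nat.mod_self]
        intro i hi j hj
        constructor
        · intro ha
          rcases lt_trichotomy i j with h | h | h
          · exact hlt i j h hj ha
          · subst h
            exact absurd ha (G.irrefl)
          · exact (hlt j i h hi ha.symm).symm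
        · rintro (h | h)
          · rw [h]; exact hf i hi
          · rw [h]; exact (hf j hj).symm
      have hC : IsOddHole G ((range n).image f) :=
        ⟨n, hn3, ⟨q, hq⟩, f, hinj, rfl, hadj⟩
      have hinj' : Set.InjOn f (range n) := by
        intro a ha b hb hab
        exact hinj (by simpa using ha) (by simpa using hb) hab
      have h1 := hh _ hC (by
        intro v hv
        simp only [coe_image, coe_range, Set.mem_image, Set.mem_Iio] at hv
        obtain ⟨i, hi, rfl⟩ := hv
        exact hW i hi)
      rw [sum_image hinj', card_image_of_injOn hinj', card_range, hnq] at h1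
      exact h1
  · have : ∃ i j, i < j ∧ j < n ∧ f i = f j := by
      by_contra hcon
      push Not at hcon
      apply hinj
      intro a ha b hb hab
      simp only [Set.mem_Iio] at ha hb
      rcases lt_trichotomy a b with h | h | h
      · exact absurd hab (hcon a b h hb)
      · exact h
      · exact absurd hab.symm (hcon b a h ha)
    obtain ⟨i, j, hij, hjn, heq⟩ := this
    apply rot i (j - i) (by omega) (by omega)
    left
    rw [show j - i + i = j by omega, Nat.mod_eq_of_lt hjn, Nat.mod_eq_of_lt (by omega)]
    exact heq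

omit [Fintype V] [DecidableEq V] in
/-- the odd cycle inequality for a walk, from the one for sequences -/
lemma walk_cl (G : SimpleGraph V) (u : V) (p : G.Walk u u) (hl : 0 < p.length) :
    Cl G p.length p.getVert := by
  apply Cl.mk'
  · intro i hi
    exact p.adj_getVert_succ (by omega)
  · have h1 := p.adj_getVert_succ (i := p.length - 1) (by omega)
    rw [show p.length - 1 + 1 = p.length by omega, p.getVert_length] at h1
    rwa [p.getVert_zero]

omit [Fintype V] in
lemma cycle_sum (G : SimpleGraph V) (u : V) (p : G.Walk u u) (hp : p.IsCycle) (x : V → ℝ) :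
    ∑ v ∈ p.support.toFinset, x v = ∑ i ∈ range p.length, x (p.getVert i) := by
  have hinj : Set.InjOn p.getVert (range p.length) := by
    intro a ha b hb hab
    have h3 := hp.three_le_length
    simp only [coe_range, Set.mem_Iio] at ha hb
    exact hp.getVert_injOn' (by simp only [Set.mem_ofPred_eq]; omega)
      (by simp only [Set.mem_ofPred_eq]; omega) hab
  rw [← sum_image hinj]
  apply sum_congr _ (fun _ _ => rfl)
  ext v
  simp only [List.mem_toFinset, mem_image, mem_range, SimpleGraph.Walk.mem_support_iff_exists_getVert]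
  have h3 := hp.three_le_length
  constructor
  · rintro ⟨i, hi, hle⟩
    rcases hle.lt_or_eq with h | h
    · exact ⟨i, h, hi⟩
    · refine ⟨0, by omega, ?_⟩
      rw [p.getVert_zero, ← hi, h, p.getVert_length]
  · rintro ⟨i, hi, hv⟩
    exact ⟨i, hv, hi.le⟩

omit [Fintype V] in
/-- extension by zero of a vector satisfying the edge and odd hole inequalities inside `W` -/
lemma mem_TSTAB (G : SimpleGraph V) (x : V → ℝ) (hx : ∀ v, 0 ≤ x v)
    (he : ∀ u v, G.Adj u v → x u + x v ≤ 1) (W : Finset V)
    (hh : ∀ C : Finset V, IsOddHole G C → C ⊆ W →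
      ∑ v ∈ C, x v ≤ ((C.card : ℝ) - 1) / 2) :
    (∀ v, 0 ≤ (if v ∈ W then x v else 0)) ∧
    (∀ u v, G.Adj u v → (if u ∈ W then x u else 0) + (if v ∈ W then x v else 0) ≤ 1) ∧
      (∀ (u : V) (p : G.Walk u u), p.IsCycle → Odd p.length →
        ∑ v ∈ p.support.toFinset, (if v ∈ W then x v else 0) ≤ ((p.length : ℝ) - 1) / 2) := by
  have he' : ∀ u v, G.Adj u v → (if u ∈ W then x u else 0) + (if v ∈ W then x v else 0) ≤ 1 := by
    intro u v huv
    have h1 := he u v huv
    have h2 := hx u
    have h3 := hx v
    split_ifs <;> linarith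
  refine ⟨fun v => by split_ifs; exacts [hx v, le_rfl], he', ?_⟩
  intro u p hp hodd
  rw [cycle_sum G u p hp]
  have h3 := hp.three_le_length
  have hcl := walk_cl G u p (by omega)
  by_cases hW : ∀ i < p.length, p.getVert i ∈ W
  · have h1 := key G x he (W : Set V) (fun C hC hCW => hh C hC (by exact_mod_cast hCW)) p.length hodd
      p.getVert hcl hW
    refine le_trans (le_of_eq ?_) h1
    apply sum_congr rfl
    intro i hi
    rw [if_pos (hW i (mem_range.1 hi))]
  · push Not at hW
    obtain ⟨i, hi, hiW⟩ := hW
    obtain ⟨q, hq⟩ := hodd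
    have hc2 := hcl.rot i
    rw [← sum_rot p.length i (fun t => if p.getVert t ∈ W then x (p.getVert t) else 0)]
    rw [split_range _ p.length 1 (2 * q) (by omega)]
    have h1 := pair_sum G (fun v => if v ∈ W then x v else 0) he'
      (fun t => p.getVert ((t + i) % p.length)) q 1 (fun t _ ht => hc2.succ t (by omega))
    simp only [range_one, sum_singleton, zero_add]
    rw [Nat.mod_eq_of_lt hi, if_neg hiW]
    have h5 : (p.length : ℝ) = 2 * q + 1 := by exact_mod_cast hq
    rw [h5]
    linarith

omit [Fintype V] in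
lemma hole_card (G : SimpleGraph V) (C : Finset V) (hC : IsOddHole G C) :
    3 ≤ C.card ∧ ∀ S : Finset V, (∀ u ∈ S, ∀ v ∈ S, ¬ G.Adj u v) →
      2 * (S ∩ C).card + 1 ≤ C.card := by
  obtain ⟨n, hn3, ⟨q, hq⟩, f, hinj, rfl, hadj⟩ := hC
  have hinj' : Set.InjOn f (range n) := by
    intro a ha b hb hab
    exact hinj (by simpa using ha) (by simpa using hb) hab
  have hcard : ((range n).image f).card = n := by
    rw [card_image_of_injOn hinj', card_range]
  rw [hcard]
  refine ⟨hn3, ?_⟩
  intro S hS
  have hcl : Cl G n f := fun i hi => (hadj i hi ((i + 1) % n) (Nat.mod_lt _ (by omega))).2 (Or.inl rfl)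
  have h1 : ((S ∩ (range n).image f).card : ℝ) = ∑ i ∈ range n, (if f i ∈ S then (1 : ℝ) else 0) := by
    rw [← sum_image (f := fun v => if v ∈ S then (1 : ℝ) else 0) hinj', sum_ite, sum_const_zero,
      add_zero, sum_const, nsmul_eq_mul, mul_one]
    congr 2
    ext v
    simp only [mem_inter, mem_filter]
    tauto
  have h2 : 2 * ∑ i ∈ range n, (if f i ∈ S then (1 : ℝ) else 0) ≤ n := by
    have h3 := sum_rot n 1 (fun i => if f i ∈ S then (1 : ℝ) else 0)
    have h4 : 2 * ∑ i ∈ range n, (if f i ∈ S then (1 : ℝ) else 0) =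
        ∑ i ∈ range n, ((if f i ∈ S then (1 : ℝ) else 0) +
          (if f ((i + 1) % n) ∈ S then (1 : ℝ) else 0)) := by
      rw [sum_add_distrib, h3]
      ring
    rw [h4]
    calc _ ≤ ∑ i ∈ range n, (1 : ℝ) := by
          apply sum_le_sum
          intro i hi
          have h5 := hcl i (mem_range.1 hi)
          by_cases ha : f i ∈ S
          · have hb : f ((i + 1) % n) ∉ S := fun hb => hS _ ha _ hb h5
            simp [ha, hb]
          · simp only [ha, if_false, zero_add]
            split_ifs <;> norm_num
      _ = n := by simp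
  rw [← h1] at h2
  have h6 : 2 * (S ∩ (range n).image f).card ≤ n := by exact_mod_cast h2
  omega

/-- one stage: a stable set missing odd holes of small total weight only -/
lemma stage (G : SimpleGraph V) (hG : TPerfect G) (x : V → ℝ) (hx : ∀ v, 0 ≤ x v)
    (he : ∀ u v, G.Adj u v → x u + x v ≤ 1) (W : Finset V) (K : Finset (Finset V))
    (hK : ∀ C ∈ K, IsOddHole G C ∧ C ⊆ W)
    (hh : ∀ C : Finset V, IsOddHole G C → C ⊆ W →
      ∑ v ∈ C, x v ≤ ((C.card : ℝ) - 1) / 2)
    (c : Finset V → ℝ) (hc : ∀ C ∈ K, 0 ≤ c C) :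
    ∃ S : Finset V, (∀ u ∈ S, ∀ v ∈ S, ¬ G.Adj u v) ∧
      ∑ C ∈ K.filter (fun C => S ∩ C = ∅), c C ≤ ∑ C ∈ K, c C * defect x C := by
  classical
  by_contra hcon
  push Not at hcon
  -- the linear functional
  set F : (V → ℝ) → ℝ := fun z => ∑ C ∈ K, c C * (2 * (∑ v ∈ C, z v) / ((C.card : ℝ) - 1)) with hF
  set y : V → ℝ := fun v => if v ∈ W then x v else 0 with hy
  have hyT : y ∈ convexHull ℝ {x : V → ℝ | ∃ s : Set V, G.IsIndepSet s ∧
      x = s.indicator (fun _ => (1 : ℝ))} := by
    rw [hG]
    exact mem_TSTAB G x hx he W hh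
  have hFy2 : F y = ∑ C ∈ K, c C * (2 * (∑ v ∈ C, x v) / ((C.card : ℝ) - 1)) := by
    simp only [hF]
    apply sum_congr rfl
    intro C hC
    have : ∑ v ∈ C, y v = ∑ v ∈ C, x v := by
      apply sum_congr rfl
      intro v hv
      simp only [hy]
      rw [if_pos ((hK C hC).2 hv)]
    rw [this]
  have hconv : Convex ℝ {z : V → ℝ | F z < F y} := by
    intro a ha b hb s t hs ht hst
    simp only [Set.mem_ofPred_eq] at ha hb ⊢
    have hlin : F (s • a + t • b) = s * F a + t * F b := by
      simp only [hF, mul_sum, ← sum_add_distrib, Pi.add_apply, Pi.smul_apply, smul_eq_mul]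
      apply sum_congr rfl
      intro C _
      rw [← mul_sum, sum_add_distrib, ← mul_sum, ← mul_sum]
      rw [← mul_sum, ← mul_sum]
      ring
    rw [hlin]
    rcases hs.lt_or_eq with h0 | h0
    · have h1 : s * F a < s * F y := mul_lt_mul_of_pos_left ha h0
      have h2 : t * F b ≤ t * F y := mul_le_mul_of_nonneg_left hb.le ht
      calc s * F a + t * F b < s * F y + t * F y := add_lt_add_of_lt_of_le h1 h2
        _ = (s + t) * F y := by ring
        _ = F y := by rw [hst, one_mul]
    · rw [← h0, zero_add] at hst
      rw [← h0, hst, zero_mul, zero_add, one_mul]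
      exact hb
  have hsub : {x : V → ℝ | ∃ s : Set V, G.IsIndepSet s ∧ x = s.indicator (fun _ => (1 : ℝ))} ⊆
      {z : V → ℝ | F z < F y} := by
    rintro z ⟨s, hs, rfl⟩
    simp only [Set.mem_ofPred_eq]
    set S : Finset V := univ.filter (fun v => v ∈ s) with hS
    have hSi : ∀ u ∈ S, ∀ v ∈ S, ¬ G.Adj u v := by
      intro u hu v hv huv
      simp only [hS, mem_filter, mem_univ, true_and] at hu hv
      exact hs hu hv huv.ne huv
    have hmiss := hcon S hSi
    have hval : ∀ C : Finset V, ∑ v ∈ C, s.indicator (fun _ => (1 : ℝ)) v = ((S ∩ C).card : ℝ) := by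
      intro C
      rw [card_eq_sum_ones, Nat.cast_sum, ← sum_subset (inter_subset_right : S ∩ C ⊆ C)]
      · apply sum_congr rfl
        intro v hv
        simp only [hS, mem_inter, mem_filter, mem_univ, true_and] at hv
        rw [Set.indicator_of_mem hv.1]
        simp
      · intro v hv hv2
        rw [Set.indicator_of_notMem]
        intro hvs
        exact hv2 (mem_inter.2 ⟨by simp [hS, hvs], hv⟩)
    have hle : ∀ C ∈ K, c C * (2 * (∑ v ∈ C, s.indicator (fun _ => (1 : ℝ)) v) /
        ((C.card : ℝ) - 1)) ≤ c C - (if S ∩ C = ∅ then c C else 0) := by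
      intro C hC
      obtain ⟨h3, h4⟩ := hole_card G C (hK C hC).1
      have h5 := h4 S hSi
      rw [hval]
      have h3' : (3 : ℝ) ≤ C.card := by exact_mod_cast h3
      have h5' : 2 * ((S ∩ C).card : ℝ) + 1 ≤ C.card := by exact_mod_cast h5
      by_cases hCC : S ∩ C = ∅
      · rw [if_pos hCC, hCC]
        simp
      · rw [if_neg hCC, sub_zero]
        apply mul_le_of_le_one_right (hc C hC)
        rw [div_le_one (by linarith)]
        linarith
    have h6 : F (s.indicator (fun _ => (1 : ℝ))) ≤
        ∑ C ∈ K, (c C - (if S ∩ C = ∅ then c C else 0)) := sum_le_sum hle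
    rw [sum_sub_distrib, ← sum_filter] at h6
    have h7 : ∑ C ∈ K, c C * defect x C = ∑ C ∈ K, c C - F y := by
      rw [hFy2, ← sum_sub_distrib]
      apply sum_congr rfl
      intro C _
      simp only [defect]
      ring
    rw [h7] at hmiss
    linarith
  exact lt_irrefl (F y) (convexHull_min hsub hconv hyT : y ∈ {z : V → ℝ | F z < F y})

/-- proper colouring of the vertices in `W` with `m` colours -/
def ColOn (G : SimpleGraph V) (W : Finset V) (m : ℕ) : Prop :=
  ∃ c : V → ℕ, (∀ v ∈ W, c v < m) ∧ ∀ u ∈ W, ∀ v ∈ W, G.Adj u v → c u ≠ c v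

omit [Fintype V] in
lemma base (G : SimpleGraph V) (W : Finset V) (h : ∀ C : Finset V, IsOddHole G C → ¬ C ⊆ W) :
    ColOn G W 2 := by
  have h2 : (G.induce (W : Set V)).Colorable 2 := by
    rw [SimpleGraph.two_colorable_iff_forall_loop_even]
    intro u w
    by_contra hodd
    rw [Nat.not_even_iff_odd] at hodd
    set p := w.map (SimpleGraph.Embedding.induce (W : Set V)).toHom with hp
    have hlen : p.length = w.length := SimpleGraph.Walk.length_map _ _
    have h1 := key G (fun _ => 1 / 2) (fun _ _ _ => by norm_num) (W : Set V)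
      (fun C hC hCW => absurd (by exact_mod_cast hCW) (h C hC)) p.length (by rw [hlen]; exact hodd)
      p.getVert (walk_cl G _ p (by rw [hlen]; exact hodd.pos)) (by
        intro i _
        rw [hp, SimpleGraph.Walk.getVert_map]
        exact (w.getVert i).2)
    simp only [sum_const, card_range, nsmul_eq_mul] at h1
    linarith
  obtain ⟨c⟩ := h2
  refine ⟨fun v => if hv : v ∈ W then (c ⟨v, by exact_mod_cast hv⟩).val else 0, ?_, ?_⟩
  · intro v hv
    simp only [dif_pos hv]
    exact (c _).isLt
  · intro u hu v hv huv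
    simp only [dif_pos hu, dif_pos hv]
    intro heq
    have : (G.induce (W : Set V)).Adj ⟨u, by exact_mod_cast hu⟩ ⟨v, by exact_mod_cast hv⟩ := by
      simpa using huv
    exact c.valid this (Fin.ext heq)

/-- Let `G` be t-perfect and let `x 0, …, x (h-1)` be nonnegative vectors satisfying the edge
inequalities. For an odd hole `C` (chordless odd cycle) let `defect (x i) C = 1 - 2 x i (C) / (|C| - 1)`.
If `defect (x i) C ≥ 0` as long as no earlier defect of `C` vanishes, and if the sum over all odd
holes `C` of the products of the `h` defects is less than `1`, then `G` is `(h + 2)`-colourable. -/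
theorem result {V : Type*} [Fintype V] [DecidableEq V] (G : SimpleGraph V) (hG : TPerfect G)
    (h : ℕ) (x : ℕ → V → ℝ) (hx : ∀ i < h, ∀ v, 0 ≤ x i v)
    (he : ∀ i < h, ∀ u v, G.Adj u v → x i u + x i v ≤ 1)
    (hC : ∀ C : Finset V, IsOddHole G C → ∀ i < h, (∀ j < i, defect (x j) C ≠ 0) →
      0 ≤ defect (x i) C)
    (hd : ∑ᶠ C ∈ {C : Finset V | IsOddHole G C}, ∏ i ∈ range h, defect (x i) C < 1) :
    G.Colorable (h + 2) := by
  classical
  rw [finsum_mem_eq_finite_toFinset_sum _ (Set.toFinite _)] at hd
  -- weights: product of the defects with index in `[i, h)`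
  set c : ℕ → Finset V → ℝ := fun i C => ∏ j ∈ Ico i h, defect (x j) C with hcdef
  have hc0 : ∀ C : Finset V, IsOddHole G C → ∀ i ≤ h, (∀ j < i, defect (x j) C ≠ 0) →
      0 ≤ c i C := by
    intro C hCh i hi hne
    simp only [hcdef]
    by_cases hz : ∃ j ∈ Ico i h, defect (x j) C = 0
    · obtain ⟨j, hj, hj0⟩ := hz
      rw [prod_eq_zero hj hj0]
    · push Not at hz
      apply prod_nonneg
      intro j hj
      rw [mem_Ico] at hj
      apply hC C hCh j hj.2
      intro l hl
      by_cases hli : l < i
      · exact hne l hli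
      · exact hz l (mem_Ico.2 ⟨by omega, by omega⟩)
  have hcs : ∀ i < h, ∀ C, c i C = defect (x i) C * c (i + 1) C := by
    intro i hi C
    simp only [hcdef]
    rw [prod_eq_prod_Ico_succ_bot hi]
  have main : ∀ m ≤ h, ∀ W : Finset V,
      (∀ C : Finset V, IsOddHole G C → C ⊆ W → ∀ j < h - m, defect (x j) C ≠ 0) →
      ∑ C ∈ univ.filter (fun C => IsOddHole G C ∧ C ⊆ W), c (h - m) C < 1 →
      ColOn G W (m + 2) := by
    intro m
    induction m with
    | zero =>
      intro _ W _ hsum
      apply base G W
      intro C hC1 hCW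
      have h1 : ∀ D ∈ univ.filter (fun C => IsOddHole G C ∧ C ⊆ W), c (h - 0) D = 1 := by
        intro D _
        simp [hcdef]
      rw [sum_congr rfl h1] at hsum
      simp only [sum_const, nsmul_eq_mul, mul_one] at hsum
      have h2 : (univ.filter (fun C => IsOddHole G C ∧ C ⊆ W)).card < 1 := by exact_mod_cast hsum
      have h3 : 0 < (univ.filter (fun C => IsOddHole G C ∧ C ⊆ W)).card :=
        card_pos.2 ⟨C, by simp [hC1, hCW]⟩
      omega
    | succ m ih =>
      intro hm W hW hsum
      set i : ℕ := h - (m + 1) with hi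
      have hih : i < h := by omega
      have hi1 : h - m = i + 1 := by omega
      set K : Finset (Finset V) := univ.filter (fun C => IsOddHole G C ∧ C ⊆ W) with hK
      have hKm : ∀ C, C ∈ K ↔ IsOddHole G C ∧ C ⊆ W := by
        intro C
        simp [hK]
      set c' : Finset V → ℝ := fun C => if defect (x i) C = 0 then 1 else c (i + 1) C with hc'
      have hc'0 : ∀ C ∈ K, 0 ≤ c' C := by
        intro C hCK
        rw [hKm] at hCK
        simp only [hc']
        split_ifs with h0
        · norm_num
        · apply hc0 C hCK.1 (i + 1) (by omega)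
          intro j hj
          rcases Nat.lt_succ_iff_lt_or_eq.1 hj with h1 | h1
          · exact hW C hCK.1 hCK.2 j h1
          · rw [h1]; exact h0
      have hle : ∀ C : Finset V, IsOddHole G C → C ⊆ W →
          ∑ v ∈ C, x i v ≤ ((C.card : ℝ) - 1) / 2 := by
        intro C hC1 hCW
        have h1 := hC C hC1 i hih (fun j hj => hW C hC1 hCW j hj)
        have h3 := (hole_card G C hC1).1
        have h3' : (3 : ℝ) ≤ C.card := by exact_mod_cast h3
        rw [defect, sub_nonneg, div_le_one (by linarith)] at h1
        linarith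
      obtain ⟨S, hS1, hS2⟩ := stage G hG (x i) (hx i hih) (he i hih) W K
        (fun C hCK => (hKm C).1 hCK) hle c' hc'0
      have hS3 : ∑ C ∈ K, c' C * defect (x i) C = ∑ C ∈ K, c i C := by
        apply sum_congr rfl
        intro C _
        rw [hcs i hih C]
        simp only [hc']
        split_ifs with h0
        · rw [h0]; ring
        · ring
      rw [hS3] at hS2
      have hS4 : ∑ C ∈ K.filter (fun C => S ∩ C = ∅), c' C < 1 := lt_of_le_of_lt hS2 hsum
      have hmiss : ∀ C, IsOddHole G C → C ⊆ W \ S → C ∈ K.filter (fun C => S ∩ C = ∅) := by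
        intro C hC1 hCW
        rw [mem_filter, hKm]
        refine ⟨⟨hC1, hCW.trans sdiff_subset⟩, ?_⟩
        rw [eq_empty_iff_forall_notMem]
        intro v hv
        rw [mem_inter] at hv
        exact (mem_sdiff.1 (hCW hv.2)).2 hv.1
      have hne : ∀ C, IsOddHole G C → C ⊆ W \ S → defect (x i) C ≠ 0 := by
        intro C hC1 hCW h0
        have h1 := hmiss C hC1 hCW
        have h2 : c' C ≤ ∑ C ∈ K.filter (fun C => S ∩ C = ∅), c' C :=
          single_le_sum (fun D hD => hc'0 D (mem_filter.1 hD).1) h1
        have h3 : c' C = 1 := by simp only [hc']; rw [if_pos h0]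
        linarith
      obtain ⟨col, hc1, hc2⟩ := ih (by omega) (W \ S) (by
        intro C hC1 hCW j hj
        rw [hi1] at hj
        rcases Nat.lt_succ_iff_lt_or_eq.1 hj with h1 | h1
        · exact hW C hC1 (hCW.trans sdiff_subset) j h1
        · rw [h1]; exact hne C hC1 hCW) (by
        refine lt_of_le_of_lt ?_ hS4
        rw [hi1]
        calc ∑ C ∈ univ.filter (fun C => IsOddHole G C ∧ C ⊆ W \ S), c (i + 1) C
            = ∑ C ∈ univ.filter (fun C => IsOddHole G C ∧ C ⊆ W \ S), c' C := by
              apply sum_congr rfl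
              intro C hCm
              simp only [mem_filter, mem_univ, true_and] at hCm
              simp only [hc']
              rw [if_neg (hne C hCm.1 hCm.2)]
          _ ≤ ∑ C ∈ K.filter (fun C => S ∩ C = ∅), c' C := by
              apply sum_le_sum_of_subset_of_nonneg
              · intro C hCm
                simp only [mem_filter, mem_univ, true_and] at hCm
                exact hmiss C hCm.1 hCm.2
              · intro C hCm _
                exact hc'0 C (mem_filter.1 hCm).1)
      refine ⟨fun v => if v ∈ S then m + 2 else col v, ?_, ?_⟩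
      · intro v hv
        by_cases hvS : v ∈ S
        · simp only [hvS, if_true]; omega
        · simp only [hvS, if_false]
          have := hc1 v (mem_sdiff.2 ⟨hv, hvS⟩)
          omega
      · intro u hu v hv huv
        by_cases huS : u ∈ S
        · have hvS : v ∉ S := fun hvS => hS1 u huS v hvS huv
          simp only [huS, hvS, if_true, if_false]
          have := hc1 v (mem_sdiff.2 ⟨hv, hvS⟩)
          omega
        · by_cases hvS : v ∈ S
          · simp only [huS, hvS, if_true, if_false]
            have := hc1 u (mem_sdiff.2 ⟨hu, huS⟩)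
            omega
          · simp only [huS, hvS, if_false]
            exact hc2 u (mem_sdiff.2 ⟨hu, huS⟩) v (mem_sdiff.2 ⟨hv, hvS⟩) huv
  have hlast : ∑ C ∈ univ.filter (fun C => IsOddHole G C ∧ C ⊆ univ), c (h - h) C < 1 := by
    refine lt_of_le_of_lt (le_of_eq ?_) hd
    rw [Nat.sub_self]
    apply sum_congr
    · ext C
      simp
    · intro C _
      simp only [hcdef]
      rw [← range_eq_Ico]
  obtain ⟨col, hc1, hc2⟩ := main h le_rfl univ (by intro C _ _ j hj; omega) hlast
  exact ⟨⟨fun v => ⟨col v, hc1 v (mem_univ v)⟩, by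
    intro u v huv heq
    exact hc2 u (mem_univ u) v (mem_univ v) huv (congrArg Fin.val heq)⟩⟩

end Pool.Agent.Results.MP_f570d5_co.OddHoleDefects
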